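import Mathlib

set_option autoImplicit false
open List

namespace Pool.Agent.H.MP_9067ea_co

variable {α : Type} [DecidableEq α]

def P (S : Finset α) (k : ℕ) (w : List α) : Prop :=
  ∀ π : List α, π.Nodup → π.length = k → (∀ x ∈ π, x ∈ S) → π <+ w

def c (S : Finset α) (w : List α) : ℕ := w.countP (fun x => decide (x ∈ S))

lemma c_app (S : Finset α) (u v : List α) : c S (u ++ v) = c S u + c S v := countP_append

lemma c_cons (S : Finset α) (a : α) (ha : a ∈ S) (v : List α) : c S (a :: v) = c S v + 1 := by
  simp [c, ha]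

lemma c_erase (S : Finset α) (a : α) (v : List α) : c (S.erase a) v ≤ c S v := by
  refine countP_mono_left ?_
  intro x _ hx
  simp at hx ⊢
  exact hx.2

lemma c_cons_erase (S : Finset α) (a : α) (v : List α) :
    c (S.erase a) (a :: v) = c (S.erase a) v := by simp [c]

lemma cnt1 (T : Finset α) (u : List α) (h : ∀ b ∈ T, b ∈ u) : T.card ≤ c T u := by
  rw [c, countP_eq_length_filter]
  refine le_trans (Finset.card_le_card ?_) (List.toFinset_card_le _)
  intro b hb
  simp [h b hb, hb]

lemma cnt2 (T : Finset α) (u : List α) (h : ∀ b ∈ T, b ∈ u) (hc : c T u ≤ T.card) (x y : α)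
    (hx : x ∈ T) (hy : y ∈ T) (hxy : x ≠ y) (h1 : [x, y] <+ u) (h2 : [y, x] <+ u) : False := by
  rw [c, countP_eq_length_filter] at hc
  set l := u.filter (fun x => decide (x ∈ T)) with hl
  have hT : T ⊆ l.toFinset := by
    intro b hb
    simp [hl, h b hb, hb]
  have hn : l.Nodup := by
    have h3 := Finset.card_le_card hT
    rw [List.card_toFinset] at h3
    have := (List.dedup_sublist l).eq_of_length_le (by omega)
    rw [← this]; exact List.nodup_dedup l
  have a1 : [x, y] <+ l := by simpa [hx, hy] using h1.filter (fun x => decide (x ∈ T))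
  have a2 : [y, x] <+ l := by simpa [hx, hy] using h2.filter (fun x => decide (x ∈ T))
  have := (List.Nodup.perm_iff_eq_of_sublist hn a1 a2).1 (List.Perm.swap _ _ _)
  simp at this
  exact hxy this.1

omit [DecidableEq α] in
lemma cut (σ τ w : List α) (a : α) (h : σ ++ a :: τ <+ w) :
    ∃ w1 w2, w = w1 ++ a :: w2 ∧ σ <+ w1 ∧ τ <+ w2 := by
  obtain ⟨r1, r2, rfl, h1, h2⟩ := append_sublist_iff.1 h
  obtain ⟨s1, s2, rfl, h3, h4⟩ := cons_sublist_iff.1 h2
  obtain ⟨t1, t2, rfl⟩ := append_of_mem h3
  exact ⟨r1 ++ t1, t2 ++ s2, by simp, h1.trans (sublist_append_left _ _),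
    h4.trans (sublist_append_right _ _)⟩

omit [DecidableEq α] in
lemma split (a : α) (u : List α) (ha : a ∉ u) (v w1 w2 : List α)
    (h : u ++ a :: v = w1 ++ a :: w2) :
    (w1 = u ∧ w2 = v) ∨ ∃ z, w1 = u ++ a :: z ∧ v = z ++ a :: w2 := by
  induction u generalizing w1 with
  | nil =>
    cases w1 with
    | nil => left; simpa using h.symm
    | cons x t =>
      simp at h
      right; exact ⟨t, by simp [h.1], h.2⟩
  | cons y u ih =>
    cases w1 with
    | nil => simp at h; exact absurd (by simp [h.1]) ha
    | cons x t =>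
      simp only [cons_append, cons.injEq] at h
      rcases ih (fun hh => ha (by simp [hh])) t h.2 with h' | ⟨z, h1, h2⟩
      · left; exact ⟨by rw [h.1, h'.1], h'.2⟩
      · right; exact ⟨z, by rw [h.1, h1]; simp, h2⟩

lemma mono (S : Finset α) (k : ℕ) (w : List α) (hk : k + 1 ≤ S.card) (h : P S (k + 1) w) :
    P S k w := by
  intro π h1 h2 h3
  have : π.toFinset.card < S.card := by rw [List.toFinset_card_of_nodup h1]; omega
  obtain ⟨x, hx, hx'⟩ := Finset.exists_mem_notMem_of_card_lt_card this
  have := h (x :: π) (nodup_cons.2 ⟨by simpa using hx', h1⟩) (by simp [h2])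
    (by intro y hy; rcases mem_cons.1 hy with rfl | hy; exacts [hx, h3 y hy])
  exact (sublist_cons_self x π).trans this

lemma mono' (S : Finset α) (j k : ℕ) (w : List α) (hj : j ≤ k) (hk : k ≤ S.card) (h : P S k w) :
    P S j w := by
  induction k, hj using Nat.le_induction with
  | base => exact h
  | succ k _ ih => exact ih (by omega) (mono S k w hk h)

lemma decomp (S : Finset α) (hS : S.Nonempty) (w : List α) (h : ∀ a ∈ S, a ∈ w) :
    ∃ u a v, w = u ++ a :: v ∧ a ∈ S ∧ a ∉ u ∧ ∀ b ∈ S.erase a, b ∈ u := by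
  induction w using List.reverseRecOn with
  | nil => obtain ⟨a, ha⟩ := hS; simpa using h a ha
  | append_singleton w x ih =>
    by_cases hw : ∀ a ∈ S, a ∈ w
    · obtain ⟨u, a, v, rfl, h1, h2, h3⟩ := ih hw
      exact ⟨u, a, v ++ [x], by simp, h1, h2, h3⟩
    · push Not at hw
      obtain ⟨a, ha, haw⟩ := hw
      have hx : a = x := by simpa [haw] using h a ha
      subst hx
      refine ⟨w, a, [], rfl, ha, haw, fun b hb => ?_⟩
      have := h b (Finset.mem_of_mem_erase hb)
      simpa [Finset.ne_of_mem_erase hb] using this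

def e (k : ℕ) : ℕ := if k ≤ 2 then 0 else if k ≤ 4 then 1 else if k ≤ 5 then 2 else 3

def F : ℕ → ℕ → ℕ
  | _, 0 => 0
  | n, k + 1 => n + e (k + 1) + F (n - 1) k

lemma F_ge (m j : ℕ) (h : 2 ≤ j) (h' : 2 ≤ m) : m + 1 ≤ F m j := by
  obtain ⟨i, rfl⟩ : ∃ i, j = i + 2 := ⟨j - 2, by omega⟩
  simp only [F]; omega

lemma F_ge3 (m j : ℕ) (h : 3 ≤ j) (h' : 2 ≤ m) : m + 2 ≤ F m j := by
  obtain ⟨i, rfl⟩ : ∃ i, j = i + 2 := ⟨j - 2, by omega⟩
  have : 1 ≤ e (i + 1 + 1) := by unfold e; split_ifs <;> omega
  simp only [F]; omega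

lemma F_eq (k : ℕ) : ∀ n, k ≤ n → F n k + k.choose 2 = k * n + max (k - 2) (3 * k - 11) := by
  induction k with
  | zero => intro n _; simp [F]
  | succ k ih =>
    intro n hn
    obtain ⟨m, rfl⟩ : ∃ m, n = m + 1 := ⟨n - 1, by omega⟩
    have := ih m (by omega)
    rw [F, Nat.choose_succ_succ' k 1, Nat.choose_one_right, Nat.add_sub_cancel]
    have h2 : (k + 1) * (m + 1) = k * m + k + m + 1 := by ring
    rw [h2]
    norm_num at this ⊢
    unfold e; split_ifs <;> omega

lemma F_ge2 (m j : ℕ) (h : 2 ≤ j) : 2 * m ≤ F m j + 1 := by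
  obtain ⟨i, rfl⟩ : ∃ i, j = i + 2 := ⟨j - 2, by omega⟩
  simp only [F]; omega

lemma F_ge4 (m j : ℕ) (h : 3 ≤ j) : 3 * m ≤ F m j + 2 := by
  obtain ⟨i, rfl⟩ : ∃ i, j = i + 3 := ⟨j - 3, by omega⟩
  have : 1 ≤ e (i + 2 + 1) := by unfold e; split_ifs <;> omega
  simp only [F]; omega

lemma F_diff (m j : ℕ) (h : 3 ≤ j) (h' : j + 2 ≤ m) : m + 1 + F m (j + 2) ≤ 2 * F m j := by
  have h1 := F_eq (j + 2) m h'
  have h2 := F_eq j m (by omega)
  have h3 := F_ge4 m j h
  have h4 : (j + 2).choose 2 = j.choose 2 + 2 * j + 1 := by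
    rw [Nat.choose_succ_succ' (j + 1) 1, Nat.choose_succ_succ' j 1, Nat.choose_one_right,
      Nat.choose_one_right]
    norm_num
    omega
  have h5 : (j + 2) * m = j * m + 2 * m := by ring
  omega

lemma c_sdiff (S R : Finset α) (h : R ⊆ S) (u : List α) : c S u = c (S \ R) u + c R u := by
  induction u with
  | nil => simp [c]
  | cons x u ih =>
    simp only [c, countP_cons] at ih ⊢
    rw [ih]
    by_cases h1 : x ∈ R
    · simp [h1, h h1]; omega
    · by_cases h2 : x ∈ S <;> simp [h1, h2]; omega

lemma pair (T : Finset α) (u τ : List α) (h : ∀ b ∈ T, b ∈ u) (hc : c T u ≤ T.card)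
    (h1 : τ.Nodup) (h2 : τ.length + 2 ≤ T.card) :
    ∃ x y, x ∈ T ∧ y ∈ T ∧ x ∉ τ ∧ y ∉ τ ∧ x ≠ y ∧ ¬ [x, y] <+ u := by
  have hc' : 1 < (T \ τ.toFinset).card := by
    have := Finset.le_card_sdiff τ.toFinset T
    rw [List.toFinset_card_of_nodup h1] at this
    omega
  obtain ⟨x, hx, y, hy, hxy⟩ := Finset.one_lt_card.1 hc'
  simp only [Finset.mem_sdiff, List.mem_toFinset] at hx hy
  by_cases q : [x, y] <+ u
  · exact ⟨y, x, hy.1, hx.1, hy.2, hx.2, hxy.symm, fun q2 => cnt2 _ u h hc x y hx.1 hy.1 hxy q q2⟩
  · exact ⟨x, y, hx.1, hy.1, hx.2, hy.2, hxy, q⟩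

theorem main (k : ℕ) : ∀ (S : Finset α) (w : List α), k ≤ S.card → P S k w → F S.card k ≤ c S w := by
  induction k using Nat.strong_induction_on with
  | _ k ih =>
  intro S w hk h
  obtain _ | k := k
  · simp [F]
  have hall : ∀ a ∈ S, a ∈ w := fun a ha => by
    simpa using mono' S 1 (k + 1) w (by omega) hk h [a] (by simp) rfl (by simpa using ha)
  obtain ⟨u, a, v, rfl, ha, hau, hu⟩ := decomp S (Finset.card_pos.1 (by omega)) w hall
  have hcard : (S.erase a).card = S.card - 1 := Finset.card_erase_of_mem ha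
  have hna : ∀ π : List α, (∀ x ∈ π, x ∈ S.erase a) → a ∉ π := fun π h3 hh => by
    simpa using h3 a hh
  have key : ∀ σ τ : List α, (σ ++ τ).Nodup → (σ ++ τ).length = k → (∀ x ∈ σ ++ τ, x ∈ S.erase a) →
      (σ <+ u ∧ τ <+ v) ∨ ∃ z w2, v = z ++ a :: w2 ∧ σ <+ u ++ a :: z ∧ τ <+ w2 := by
    intro σ τ h1 h2 h3
    have hp : (σ ++ a :: τ).Perm (a :: (σ ++ τ)) := perm_middle
    have := h (σ ++ a :: τ) (hp.nodup_iff.2 (nodup_cons.2 ⟨hna _ h3, h1⟩))
      (by rw [hp.length_eq]; simp only [length_cons, h2])
      (by intro y hy; rcases mem_cons.1 (hp.subset hy) with rfl | hy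
          exacts [ha, Finset.mem_of_mem_erase (h3 y hy)])
    obtain ⟨w1, w2, e1, e2, e3⟩ := cut _ _ _ _ this
    rcases split a u hau v w1 w2 e1 with ⟨rfl, rfl⟩ | ⟨z, rfl, rfl⟩
    · exact Or.inl ⟨e2, e3⟩
    · exact Or.inr ⟨z, w2, rfl, e2, e3⟩
  have hv : P (S.erase a) k v := by
    intro π h1 h2 h3
    rcases key [] π h1 h2 h3 with h4 | ⟨z, w2, rfl, -, h5⟩
    · exact h4.2
    · exact h5.trans ((sublist_cons_self a w2).trans (sublist_append_right _ _))
  have b1 := ih k (by omega) _ v (by omega) hv
  have b2 := cnt1 _ u hu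
  have b3 := c_erase S a u
  rw [c_app, c_cons S a ha, F]
  rw [hcard] at b1 b2
  by_cases hav : a ∈ v
  · obtain ⟨v1, v2, rfl, hv1⟩ := eq_append_cons_of_mem hav
    have d1 := c_erase S a v1
    rw [c_app, c_cons_erase] at b1
    rw [c_app, c_cons S a ha]
    by_cases hav2 : a ∈ v2
    · obtain ⟨v3, v4, rfl, hv3⟩ := eq_append_cons_of_mem hav2
      have d3 := c_erase S a v3
      rw [c_app, c_cons_erase] at b1
      rw [c_app, c_cons S a ha]
      by_cases hav4 : a ∈ v4
      · obtain ⟨v5, v6, rfl⟩ := append_of_mem hav4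
        have d5 := c_erase S a v5
        have d6 := c_erase S a v6
        rw [c_app, c_cons_erase] at b1
        rw [c_app, c_cons S a ha]
        unfold e; split_ifs <;> omega
      have d4 := c_erase S a v4
      by_cases hk5 : k + 1 ≤ 5
      · unfold e; split_ifs <;> omega
      by_cases hbig : S.card - 1 < c (S.erase a) u
      · unfold e; split_ifs <;> omega
      have key3 : ∀ σ τ : List α, (σ ++ τ).Nodup → (σ ++ τ).length = k →
          (∀ x ∈ σ ++ τ, x ∈ S.erase a) → σ <+ u ∨ (σ <+ u ++ a :: v1 ∧ τ <+ v3 ++ a :: v4) ∨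
            (σ <+ u ++ a :: (v1 ++ a :: v3) ∧ τ <+ v4) := by
        intro σ τ h1 h2 h3
        rcases key σ τ h1 h2 h3 with h4 | ⟨z, w2, hz, h5, h6⟩
        · exact Or.inl h4.1
        · rcases split a v1 hv1 _ z w2 hz with ⟨rfl, rfl⟩ | ⟨y, rfl, hy⟩
          · exact Or.inr (Or.inl ⟨h5, h6⟩)
          · rcases split a v3 hv3 _ y w2 hy with ⟨rfl, rfl⟩ | ⟨y', -, hy'⟩
            · exact Or.inr (Or.inr ⟨h5, h6⟩)
            · exact absurd (by simp [hy']) hav4
      have s1 : u <+ u ++ a :: v1 := sublist_append_left _ _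
      have s2 : u ++ a :: v1 <+ u ++ a :: (v1 ++ a :: v3) :=
        Sublist.append_left ((sublist_append_left _ _).cons₂ a) u
      have s3 : v4 <+ v3 ++ a :: v4 := (sublist_cons_self a v4).trans (sublist_append_right _ _)
      have p1 : P (S.erase a) k (u ++ a :: (v1 ++ a :: v3)) := by
        intro π h1 h2 h3
        rcases key3 π [] (by simpa using h1) (by simpa using h2) (by simpa using h3) with
          h4 | h4 | h4
        exacts [(h4.trans s1).trans s2, h4.1.trans s2, h4.1]
      have p2 : P (S.erase a) (k - 2) (v3 ++ a :: v4) := by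
        intro τ h1 h2 h3
        obtain ⟨x, y, hx, hy, hx', hy', hxy, q⟩ := pair _ u τ hu (by omega) h1 (by omega)
        rcases key3 [x, y] τ (by simp [hxy, hx', hy', h1]) (by simp [h2]; omega)
          (by intro t ht
              simp only [cons_append, nil_append, mem_cons] at ht
              rcases ht with rfl | rfl | ht
              exacts [hx, hy, h3 t ht]) with h4 | h4 | h4
        exacts [absurd h4 q, h4.2, h4.2.trans s3]
      have r1 := ih k (by omega) _ _ (by omega) p1
      have r2 := ih (k - 2) (by omega) _ _ (by omega) p2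
      rw [hcard] at r1 r2
      rw [c_app, c_cons_erase, c_app, c_cons_erase] at r1
      rw [c_app, c_cons_erase] at r2
      by_cases hb4 : S.card - 1 < c (S.erase a) v4
      · unfold e; split_ifs <;> omega
      by_cases hall4 : ∀ b ∈ S.erase a, b ∈ v4
      · have p3 : P (S.erase a) (k - 2) (u ++ a :: v1) := by
          intro σ h1 h2 h3
          obtain ⟨x, y, hx, hy, hx', hy', hxy, q⟩ := pair _ v4 σ hall4 (by omega) h1 (by omega)
          have hp : (σ ++ [x, y]).Perm ([x, y] ++ σ) := perm_append_comm
          rcases key3 σ [x, y] (hp.nodup_iff.2 (by simp [hxy, hx', hy', h1])) (by simp [h2]; omega)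
            (by intro t ht
                simp only [mem_append, mem_cons, not_mem_nil, or_false] at ht
                rcases ht with ht | rfl | rfl
                exacts [h3 t ht, hx, hy]) with h4 | h4 | h4
          exacts [h4.trans s1, h4.1, absurd h4.2 q]
        have r3 := ih (k - 2) (by omega) _ _ (by omega) p3
        rw [hcard, c_app, c_cons_erase] at r3
        have r4 := F_diff (S.card - 1) (k - 2) (by omega) (by omega)
        rw [show k - 2 + 2 = k by omega] at r4
        unfold e; split_ifs <;> omega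
      · push Not at hall4
        obtain ⟨z, hz, hz4⟩ := hall4
        have hcz : ((S.erase a).erase z).card = S.card - 1 - 1 := by
          rw [Finset.card_erase_of_mem hz, hcard]
        have p3 : P ((S.erase a).erase z) (k - 1) (u ++ a :: v1) := by
          intro σ h1 h2 h3
          have hp : (σ ++ [z]).Perm (z :: σ) := perm_append_singleton _ _
          have hzσ : z ∉ σ := fun hh => by simpa using h3 z hh
          rcases key3 σ [z] (hp.nodup_iff.2 (nodup_cons.2 ⟨hzσ, h1⟩)) (by simp [h2]; omega)
            (by intro t ht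
                rcases mem_cons.1 (hp.subset ht) with rfl | ht
                exacts [hz, Finset.mem_of_mem_erase (h3 t ht)]) with h4 | h4 | h4
          exacts [h4.trans s1, h4.1, absurd (by simpa using h4.2) hz4]
        have r3 := ih (k - 1) (by omega) _ _ (by omega) p3
        have r5 := c_erase (S.erase a) z (u ++ a :: v1)
        rw [hcz] at r3
        rw [c_app (S.erase a), c_cons_erase] at r5
        have r4 := F_ge4 (S.card - 1) (k - 2) (by omega)
        have r6 : F (S.card - 1) (k - 1 + 1) = S.card - 1 + e (k - 1 + 1) + F (S.card - 1 - 1) (k - 1) := by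
          rw [F]
        rw [show k - 1 + 1 = k by omega] at r6
        have r7 : c ((S.erase a).erase z) (u ++ a :: v1) + 1 ≤ c (S.erase a) (u ++ a :: v1) := by
          have t1 := c_sdiff (S.erase a) {z} (by simpa using hz) (u ++ a :: v1)
          have t2 := cnt1 {z} (u ++ a :: v1) (by
            intro b hb; rw [Finset.mem_singleton.1 hb]; exact s1.subset (hu z hz))
          rw [Finset.sdiff_singleton_eq_erase] at t1
          rw [Finset.card_singleton] at t2
          omega
        rw [c_app (S.erase a), c_cons_erase] at r7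
        have r8 : e k ≤ 3 := by unfold e; split_ifs <;> omega
        have r9 : e (k + 1) ≤ 3 := by unfold e; split_ifs <;> omega
        omega
    · have d2 := c_erase S a v2
      by_cases hk4 : k + 1 ≤ 4
      · unfold e; split_ifs <;> omega
      have uniq : ∀ z w2, v1 ++ a :: v2 = z ++ a :: w2 → z = v1 ∧ w2 = v2 := by
        intro z w2 hz
        rcases split a v1 hv1 v2 z w2 hz with h' | ⟨y, -, h2⟩
        · exact h'
        · exact absurd (by simp [h2]) hav2
      have p1 : P (S.erase a) k (u ++ a :: v1) := by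
        intro π h1 h2 h3
        rcases key π [] (by simpa using h1) (by simpa using h2) (by simpa using h3) with
          h4 | ⟨z, w2, hz, h5, -⟩
        · exact h4.1.trans (sublist_append_left _ _)
        · rwa [(uniq z w2 hz).1] at h5
      by_cases hk6 : 6 ≤ k + 1
      · by_cases hbig : S.card < c (S.erase a) u
        · unfold e; split_ifs <;> omega
        have p4 : P (S.erase a) (k - 3) v2 := by
          intro τ h1 h2 h3
          have hsub : τ.toFinset ⊆ S.erase a := fun x hx => h3 x (List.mem_toFinset.1 hx)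
          have hT : (S.erase a \ τ.toFinset).card = S.card - 1 - (k - 3) := by
            rw [Finset.card_sdiff_of_subset hsub, List.toFinset_card_of_nodup h1, hcard, h2]
          by_contra hτ
          have p5 : P (S.erase a \ τ.toFinset) 3 u := by
            intro σ g1 g2 g3
            simp only [Finset.mem_sdiff, List.mem_toFinset] at g3
            rcases key σ τ (nodup_append.2 ⟨g1, h1, fun x hx y hy hxy => (g3 x hx).2 (hxy ▸ hy)⟩)
              (by simp [g2, h2]; omega)
              (by intro t ht
                  rcases mem_append.1 ht with ht | ht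
                  exacts [(g3 t ht).1, h3 t ht]) with h4 | ⟨z, w2, hz, -, h5⟩
            · exact h4.1
            · rw [(uniq z w2 hz).2] at h5; exact absurd h5 hτ
          have t1 := ih 3 (by omega) _ _ (by omega) p5
          have t2 := c_sdiff _ _ hsub u
          have t3 := cnt1 τ.toFinset u (fun b hb => hu b (hsub hb))
          have t4 := F_ge4 (S.erase a \ τ.toFinset).card 3 le_rfl
          rw [List.toFinset_card_of_nodup h1] at t3
          omega
        have r1 := ih k (by omega) _ _ (by omega) p1
        have r2 := ih (k - 3) (by omega) _ _ (by omega) p4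
        rw [hcard] at r1 r2
        have r3 := F_ge2 (S.card - 1) (k - 3) (by omega)
        rw [c_app, c_cons_erase] at r1
        unfold e; split_ifs <;> omega
      by_cases hbig : S.card - 1 < c (S.erase a) u
      · unfold e; split_ifs <;> omega
      have p2 : P (S.erase a) (k - 2) v2 := by
        intro τ h1 h2 h3
        have hc : 1 < (S.erase a \ τ.toFinset).card := by
          have := Finset.le_card_sdiff τ.toFinset (S.erase a)
          rw [List.toFinset_card_of_nodup h1] at this
          omega
        obtain ⟨x, hx, y, hy, hxy⟩ := Finset.one_lt_card.1 hc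
        simp only [Finset.mem_sdiff, List.mem_toFinset] at hx hy
        have q : ∀ x y : α, x ∈ S.erase a ∧ x ∉ τ → y ∈ S.erase a ∧ y ∉ τ → x ≠ y →
            [x, y] <+ u ∨ τ <+ v2 := by
          intro x y hx hy hxy
          rcases key [x, y] τ (by simp [hxy, hx.2, hy.2, h1]) (by simp [h2]; omega)
            (by intro t ht
                simp only [cons_append, nil_append, mem_cons] at ht
                rcases ht with rfl | rfl | ht
                exacts [hx.1, hy.1, h3 t ht]) with h4 | ⟨z, w2, hz, -, h5⟩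
          · exact Or.inl h4.1
          · right; rwa [(uniq z w2 hz).2] at h5
        rcases q x y hx hy hxy with q1 | q1
        · rcases q y x hy hx hxy.symm with q2 | q2
          · exact (cnt2 _ u hu (by omega) x y hx.1 hy.1 hxy q1 q2).elim
          · exact q2
        · exact q1
      have r1 := ih k (by omega) _ _ (by omega) p1
      have r2 := ih (k - 2) (by omega) _ _ (by omega) p2
      rw [hcard] at r1 r2
      have r3 := F_ge (S.card - 1) (k - 2) (by omega) (by omega)
      rw [c_app, c_cons_erase] at r1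
      unfold e; split_ifs <;> omega
  · have d := c_erase S a v
    have p1 : P (S.erase a) k u := by
      intro π h1 h2 h3
      rcases key π [] (by simpa using h1) (by simpa using h2) (by simpa using h3) with
        h4 | ⟨z, w2, hz, -, -⟩
      · exact h4.1
      · exact absurd (by simp [hz]) hav
    have r1 := ih k (by omega) _ _ (by omega) p1
    rw [hcard] at r1
    by_cases hk2 : k + 1 ≤ 2
    · unfold e; split_ifs <;> omega
    have r3 := F_ge (S.card - 1) k (by omega) (by omega)
    by_cases hk4 : k + 1 ≤ 4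
    · unfold e; split_ifs <;> omega
    have r4 := F_ge4 (S.card - 1) k (by omega)
    unfold e; split_ifs <;> omega

end Pool.Agent.H.MP_9067ea_co
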